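import Pool.Agent.Helper17.QD.Glue

/-!
# Project QD, glue: the module TMI (the clauses at infinity)
-/

set_option autoImplicit false

open Filter Topology Matrix Set Metric MeasureTheory
open scoped ComplexConjugate ComplexOrder ENNReal

namespace Pool.Agent.Helper84.QL

open Pool.Agent.Helper17.QD Pool.Agent.Helper35.PM
open Pool.Agent.Helper68.QC (nq Bel InvB Intw)
open Pool.Agent.Helper20.QD (Fuch cj IsSU D DD SS dz dzb mob den)

private theorem ne_TMI (A : SL) (h : A 1 0 = 0) : A 1 1 ≠ 0 := by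
  intro h1
  have h2 := A.det_coe
  rw [Matrix.det_fin_two] at h2
  rw [h, h1] at h2
  simp at h2

private theorem den_inv_TMI (A : SL) (z : ℂ) : den A⁻¹ z = -A 1 0 * z + A 0 0 := by
  unfold den
  rw [Matrix.SpecialLinearGroup.coe_inv, Matrix.adjugate_fin_two]
  simp

private theorem den_TMI (A : SL) (z : ℂ) : den A z = A 1 0 * z + A 1 1 := rfl

theorem hTMI : StTMI := by
  intro Γ _ σ ρ w hw h γ
  have h10 : (σ γ) 1 0 = 0 ↔ (ρ γ) 1 0 = 0 := by
    constructor
    · intro hA
      by_contra hB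
      obtain ⟨z, hz⟩ := hw.bijective.surjective (-(ρ γ) 1 1 / (ρ γ) 1 0)
      have h1 : den (ρ γ) (w z) = 0 := by
        rw [hz, den_TMI]
        field_simp
        ring
      have h2 := (h γ z).1.2 h1
      rw [den_TMI, hA, zero_mul, zero_add] at h2
      exact ne_TMI _ hA h2
    · intro hB
      by_contra hA
      have h1 : den (σ γ) (-(σ γ) 1 1 / (σ γ) 1 0) = 0 := by
        rw [den_TMI]
        field_simp
        ring
      have h2 := (h γ _).1.1 h1
      rw [den_TMI, hB, zero_mul, zero_add] at h2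
      exact ne_TMI _ hB h2
  refine ⟨fun z => (h γ z).1, fun z => (h γ z).2, h10, ?_⟩
  intro hA
  have hB : (ρ γ) 1 0 ≠ 0 := fun hB => hA (h10.2 hB)
  have h1 : den (σ γ⁻¹) ((σ γ) 0 0 / (σ γ) 1 0) = 0 := by
    rw [map_inv, den_inv_TMI]
    field_simp
    ring
  have h2 := (h γ⁻¹ _).1.1 h1
  rw [map_inv, den_inv_TMI] at h2
  rw [eq_div_iff hB]
  linear_combination -h2

end Pool.Agent.Helper84.QL
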